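import Pool.Agent.H8.UG.Targets

/-!
# Row GD2 of the board ubg: matrices over `S` over `K ⊗ S`
-/

open TensorProduct

namespace Pool.Agent.H23.UG

open Pool.Agent.H8.UG

/-- conjugation by a unit -/
def conjE {R : Type} [Ring R] (u v : R) (h1 : u * v = 1) (h2 : v * u = 1) : R ≃+* R where
  toFun x := u * x * v
  invFun x := v * x * u
  left_inv x := by
    change v * (u * x * v) * u = x
    rw [mul_assoc u x v, ← mul_assoc v u, h2, one_mul, mul_assoc, h2, mul_one]
  right_inv x := by
    change u * (v * x * u) * v = x
    rw [mul_assoc v x u, ← mul_assoc u v, h1, one_mul, mul_assoc, h1, mul_one]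
  map_mul' x y := by
    rw [mul_assoc u x v, mul_assoc u y v, mul_assoc u (x * v), mul_assoc x v, ← mul_assoc v u,
      h2, one_mul, mul_assoc u, mul_assoc x]
  map_add' x y := by rw [mul_add, add_mul]

theorem conjE_apply {R : Type} [Ring R] (u v : R) (h1 : u * v = 1) (h2 : v * u = 1) (x : R) :
    conjE u v h1 h2 x = u * x * v := rfl

section

variable {S : Type} [Ring S] {n : ℕ}

/-- the matrix with column `i` equal to `c` -/
def Dm (c : Fin n → S) (i : Fin n) : Matrix (Fin n) (Fin n) S :=
  Matrix.of fun p q => if q = i then c p else 0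

theorem Dm_mul (c : Fin n → S) (hc : ∀ p s, c p * s = s * c p) (i : Fin n)
    (t : Matrix (Fin n) (Fin n) S) :
    Dm c i * t = ∑ b, Matrix.scalar (Fin n) (t i b) * Dm c b := by
  ext p q
  rw [Matrix.mul_apply, Matrix.sum_apply]
  have h1 : ∑ j, Dm c i p j * t j q = c p * t i q := by
    rw [Finset.sum_eq_single i]
    · simp [Dm]
    · intro b _ hb
      simp [Dm, hb]
    · intro h
      exact absurd (Finset.mem_univ i) h
  have h2 : ∑ b, (Matrix.scalar (Fin n) (t i b) * Dm c b) p q = t i q * c p := by
    rw [Finset.sum_eq_single q]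
    · rw [Matrix.scalar_apply, Matrix.diagonal_mul]
      simp [Dm]
    · intro b _ hb
      rw [Matrix.scalar_apply, Matrix.diagonal_mul]
      simp [Dm, hb.symm]
    · intro h
      exact absurd (Finset.mem_univ q) h
  rw [h1, h2, hc]

theorem mul_single (t : Matrix (Fin n) (Fin n) S) (b j : Fin n) :
    t * Matrix.single b j 1 = ∑ i, Matrix.single i j 1 * Matrix.scalar (Fin n) (t i b) := by
  ext p q
  rw [Matrix.sum_apply, Matrix.mul_apply]
  have h1 : ∑ l, t p l * (Matrix.single b j (1 : S)) l q = if q = j then t p b else 0 := by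
    rw [Finset.sum_eq_single b]
    · by_cases h : q = j
      · subst h
        simp
      · rw [Matrix.single_apply, if_neg (fun hh => h hh.2.symm), if_neg h, mul_zero]
    · intro l _ hl
      rw [Matrix.single_apply, if_neg (fun hh => hl hh.1.symm), mul_zero]
    · intro h
      exact absurd (Finset.mem_univ b) h
  have h2 : ∑ i, (Matrix.single i j (1 : S) * Matrix.scalar (Fin n) (t i b)) p q =
      if q = j then t p b else 0 := by
    rw [Finset.sum_eq_single p]
    · rw [Matrix.scalar_apply, Matrix.mul_diagonal]
      by_cases h : q = j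
      · subst h
        simp
      · rw [Matrix.single_apply, if_neg (fun hh => h hh.2.symm), if_neg h, zero_mul]
    · intro i _ hi
      rw [Matrix.scalar_apply, Matrix.mul_diagonal, Matrix.single_apply,
        if_neg (fun hh => hi hh.1), zero_mul]
    · intro h
      exact absurd (Finset.mem_univ p) h
  rw [h1, h2]

theorem eq_sum_single (t : Matrix (Fin n) (Fin n) S) :
    t = ∑ p : Fin n × Fin n, Matrix.scalar (Fin n) (t p.1 p.2) * Matrix.single p.1 p.2 1 := by
  ext i j
  rw [Matrix.sum_apply, Finset.sum_eq_single (i, j)]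
  · rw [Matrix.scalar_apply, Matrix.diagonal_mul]
    simp
  · rintro ⟨a, b⟩ _ hab
    rw [Matrix.scalar_apply, Matrix.diagonal_mul, Matrix.single_apply, if_neg, mul_zero]
    rintro ⟨h1, h2⟩
    exact hab (Prod.ext h1 h2)
  · intro h
    exact absurd (Finset.mem_univ _) h

theorem sum_single_diag : ∑ j : Fin n, Matrix.single j j (1 : S) = 1 := by
  ext p q
  rw [Matrix.sum_apply]
  by_cases h : p = q
  · subst h
    rw [Finset.sum_eq_single p, Matrix.one_apply_eq]
    · simp
    · intro b _ hb
      rw [Matrix.single_apply, if_neg (fun hh => hb hh.1)]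
    · intro h
      exact absurd (Finset.mem_univ _) h
  · rw [Matrix.one_apply_ne h]
    refine Finset.sum_eq_zero fun b _ => ?_
    rw [Matrix.single_apply, if_neg (fun hh => h (hh.1.symm.trans hh.2))]

end

theorem GD2_aux {n : ℕ} (k K : Type) [Field k] [Field K] [Algebra k K]
    (b : Module.Basis (Fin n) k K) (a : Fin n → K)
    (ha1 : ∀ x : K, ∃ c : Fin n → Fin n → k,
      (∀ i, b i * x = ∑ j, c i j • b j) ∧ ∀ j, x * a j = ∑ i, c i j • a i)
    (ha2 : ∑ i, a i * b i = 1) (S : Type) [Ring S] [Algebra k S]
    (g : (K ⊗[k] S) →+* Matrix (Fin n) (Fin n) S)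
    (hg : ∀ (x : K) (s : S) i j, g (x ⊗ₜ[k] s) i j = algebraMap k S (b.repr (x * b j) i) * s) :
    ∃ σ : Fin n → (Matrix (Fin n) (Fin n) S ≃+* Matrix (Fin n) (Fin n) S), FD g n σ := by
  classical
  have hsc : ∀ s : S, g ((1 : K) ⊗ₜ[k] s) = Matrix.scalar (Fin n) s := by
    intro s
    ext i j
    rw [hg, one_mul, Matrix.scalar_apply, Matrix.diagonal_apply, Module.Basis.repr_self,
      Finsupp.single_apply]
    by_cases h : i = j
    · subst h
      simp
    · rw [if_neg h, if_neg (fun hh => h hh.symm), map_zero, zero_mul]
  let L : K → Matrix (Fin n) (Fin n) S := fun x => g (x ⊗ₜ[k] (1 : S))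
  have hL : ∀ x i j, L x i j = algebraMap k S (b.repr (x * b j) i) := by
    intro x i j
    change g (x ⊗ₜ[k] (1 : S)) i j = _
    rw [hg, mul_one]
  have hL1 : ∀ j, L (b j) * L (b j)⁻¹ = 1 := by
    intro j
    change g _ * g _ = 1
    rw [← map_mul, Algebra.TensorProduct.tmul_mul_tmul, mul_inv_cancel₀ (b.ne_zero j), one_mul,
      ← Algebra.TensorProduct.one_def, map_one]
  have hL2 : ∀ j, L (b j)⁻¹ * L (b j) = 1 := by
    intro j
    change g _ * g _ = 1
    rw [← map_mul, Algebra.TensorProduct.tmul_mul_tmul, inv_mul_cancel₀ (b.ne_zero j), one_mul,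
      ← Algebra.TensorProduct.one_def, map_one]
  have hcen : ∀ (x : K) (t : K ⊗[k] S), (x ⊗ₜ[k] (1 : S)) * t = t * (x ⊗ₜ[k] (1 : S)) := by
    intro x t
    induction t using TensorProduct.induction_on with
    | zero => rw [mul_zero, zero_mul]
    | tmul y s => rw [Algebra.TensorProduct.tmul_mul_tmul, Algebra.TensorProduct.tmul_mul_tmul,
        one_mul, mul_one, mul_comm]
    | add u v hu hv => rw [mul_add, add_mul, hu, hv]
  refine ⟨fun j => conjE (L (b j)) (L (b j)⁻¹) (hL1 j) (hL2 j), ?_, ?_, ?_, ?_⟩
  · -- finiteness
    have hsurj : Function.Surjective (Fintype.linearCombination (K ⊗[k] S)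
        (fun p : Fin n × Fin n => (show RS g (Matrix (Fin n) (Fin n) S) from
          Matrix.single p.1 p.2 1))) := by
      intro t
      refine ⟨fun p => (1 : K) ⊗ₜ[k] (show Matrix (Fin n) (Fin n) S from t) p.1 p.2, ?_⟩
      rw [Fintype.linearCombination_apply]
      refine Eq.trans ?_ (eq_sum_single (show Matrix (Fin n) (Fin n) S from t)).symm
      change (∑ p : Fin n × Fin n, g _ • (Matrix.single p.1 p.2 (1 : S)) :
        Matrix (Fin n) (Fin n) S) = _
      refine Finset.sum_congr rfl fun p _ => ?_
      rw [hsc]
      rfl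
    exact Module.Finite.of_surjective _ hsurj
  · -- the retraction
    let r : Matrix (Fin n) (Fin n) S →+ K ⊗[k] S :=
      { toFun := fun A => ∑ i, ∑ l, (b l * a i) ⊗ₜ[k] A l i
        map_zero' := by
          refine Finset.sum_eq_zero fun i _ => Finset.sum_eq_zero fun l _ => ?_
          rw [Matrix.zero_apply, TensorProduct.tmul_zero]
        map_add' := fun A B => by
          rw [← Finset.sum_add_distrib]
          refine Finset.sum_congr rfl fun i _ => ?_
          rw [← Finset.sum_add_distrib]
          refine Finset.sum_congr rfl fun l _ => ?_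
          rw [Matrix.add_apply, TensorProduct.tmul_add] }
    have hr : ∀ A, r A = ∑ i, ∑ l, (b l * a i) ⊗ₜ[k] A l i := fun A => rfl
    refine ⟨r, ?_, ?_, ?_⟩
    · intro x A
      induction x using TensorProduct.induction_on with
      | zero => rw [map_zero, zero_mul, map_zero, zero_mul]
      | tmul y s =>
        rw [hr, hr, Finset.mul_sum]
        refine Finset.sum_congr rfl fun i _ => ?_
        rw [Finset.mul_sum]
        have h1 : ∀ l, (b l * a i) ⊗ₜ[k] (g (y ⊗ₜ[k] s) * A) l i =
            ∑ m, ((b.repr (y * b m) l • b l) * a i) ⊗ₜ[k] (s * A m i) := by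
          intro l
          rw [Matrix.mul_apply, TensorProduct.tmul_sum]
          refine Finset.sum_congr rfl fun m _ => ?_
          rw [hg, mul_assoc, ← Algebra.smul_def, TensorProduct.tmul_smul,
            TensorProduct.smul_tmul', smul_mul_assoc]
        rw [Finset.sum_congr rfl fun l _ => h1 l, Finset.sum_comm]
        refine Finset.sum_congr rfl fun m _ => ?_
        rw [← TensorProduct.sum_tmul, ← Finset.sum_mul, b.sum_repr,
          Algebra.TensorProduct.tmul_mul_tmul, mul_assoc]
      | add u v hu hv => rw [map_add, add_mul, map_add, hu, hv, add_mul]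
    · intro x A
      induction x using TensorProduct.induction_on with
      | zero => rw [map_zero, mul_zero, map_zero, mul_zero]
      | tmul y s =>
        obtain ⟨c, hc1, hc2⟩ := ha1 y
        have hc : ∀ i m, b.repr (y * b i) m = c i m := by
          intro i m
          rw [mul_comm, hc1, map_sum, Finsupp.finsetSum_apply, Finset.sum_eq_single m]
          · rw [map_smul, Finsupp.smul_apply, Module.Basis.repr_self, Finsupp.single_eq_same,
              smul_eq_mul, mul_one]
          · intro j _ hj
            rw [map_smul, Finsupp.smul_apply, Module.Basis.repr_self, Finsupp.single_apply,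
              if_neg hj, smul_zero]
          · intro h
            exact absurd (Finset.mem_univ m) h
        rw [hr, hr]
        have h1 : ∀ i l, (b l * a i) ⊗ₜ[k] (A * g (y ⊗ₜ[k] s)) l i =
            ∑ m, (b l * (c i m • a i)) ⊗ₜ[k] (A l m * s) := by
          intro i l
          rw [Matrix.mul_apply, TensorProduct.tmul_sum]
          refine Finset.sum_congr rfl fun m _ => ?_
          rw [hg, hc, ← Algebra.smul_def, mul_smul_comm, TensorProduct.tmul_smul,
            TensorProduct.smul_tmul', mul_smul_comm]
        have h2 : ∑ i, ∑ l, (b l * a i) ⊗ₜ[k] (A * g (y ⊗ₜ[k] s)) l i =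
            ∑ l, ∑ m, (b l * (y * a m)) ⊗ₜ[k] (A l m * s) := by
          rw [Finset.sum_congr rfl fun i _ => Finset.sum_congr rfl fun l _ => h1 i l,
            Finset.sum_comm]
          refine Finset.sum_congr rfl fun l _ => ?_
          rw [Finset.sum_comm]
          refine Finset.sum_congr rfl fun m _ => ?_
          rw [← TensorProduct.sum_tmul, ← Finset.mul_sum, ← hc2]
        rw [h2, Finset.sum_comm, Finset.sum_mul]
        refine Finset.sum_congr rfl fun i _ => ?_
        rw [Finset.sum_mul]
        refine Finset.sum_congr rfl fun l _ => ?_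
        rw [Algebra.TensorProduct.tmul_mul_tmul, mul_comm y, mul_assoc]
      | add u v hu hv => rw [map_add, mul_add, map_add, hu, hv, mul_add]
    · rw [hr]
      have h1 : ∀ i, ∑ l, (b l * a i) ⊗ₜ[k] (1 : Matrix (Fin n) (Fin n) S) l i =
          (a i * b i) ⊗ₜ[k] (1 : S) := by
        intro i
        rw [Finset.sum_eq_single i]
        · rw [Matrix.one_apply_eq, mul_comm]
        · intro l _ hl
          rw [Matrix.one_apply_ne hl, TensorProduct.tmul_zero]
        · intro h
          exact absurd (Finset.mem_univ i) h
      rw [Finset.sum_congr rfl fun i _ => h1 i, ← TensorProduct.sum_tmul, ha2,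
        Algebra.TensorProduct.one_def]
  · -- the automorphisms fix `g`
    intro i t
    rw [conjE_apply]
    change g _ * g t * g _ = g t
    rw [← map_mul, hcen, map_mul, mul_assoc]
    have := hL1 i
    change g _ * g _ = 1 at this
    rw [this, mul_one]
  · -- the decomposition
    intro X M _ _ _ _ ψ hψ
    let c : Fin n → S := fun p => algebraMap k S (b.repr 1 p)
    have hc : ∀ p s, c p * s = s * c p := fun p s => Algebra.commutes _ _
    have hψs : ∀ (s : S) (x : X), ψ (Matrix.scalar (Fin n) s • x) =
        Matrix.scalar (Fin n) s • ψ x := by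
      intro s x
      rw [← hsc]
      exact hψ _ _
    let χ : Fin n → X → M := fun j x => ∑ i, Matrix.single i j (1 : S) • ψ (Dm c i • x)
    have hχ : ∀ j x, χ j x = ∑ i, Matrix.single i j (1 : S) • ψ (Dm c i • x) := fun j x => rfl
    have hχt : ∀ j (t : Matrix (Fin n) (Fin n) S) x, χ j (t • x) = t • χ j x := by
      intro j t x
      rw [hχ, hχ, Finset.smul_sum]
      have h1 : ∀ i, Matrix.single i j (1 : S) • ψ (Dm c i • t • x) =
          ∑ b', (Matrix.single i j (1 : S) * Matrix.scalar (Fin n) (t i b')) •
            ψ (Dm c b' • x) := by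
        intro i
        rw [← mul_smul, Dm_mul c hc, Finset.sum_smul, map_sum, Finset.smul_sum]
        refine Finset.sum_congr rfl fun b' _ => ?_
        rw [mul_smul, hψs, mul_smul]
      have h2 : ∀ b', t • Matrix.single b' j (1 : S) • ψ (Dm c b' • x) =
          ∑ i, (Matrix.single i j (1 : S) * Matrix.scalar (Fin n) (t i b')) •
            ψ (Dm c b' • x) := by
        intro b'
        rw [← mul_smul, mul_single, Finset.sum_smul]
      rw [Finset.sum_congr rfl fun i _ => h1 i, Finset.sum_congr rfl fun i _ => h2 i,
        Finset.sum_comm]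
    let φ : Fin n → (X →+ M) := fun j =>
      { toFun := fun x => L (b j) • χ j x
        map_zero' := by
          rw [hχ]
          simp
        map_add' := fun x y => by
          rw [← smul_add]
          congr 1
          rw [hχ, hχ, hχ, ← Finset.sum_add_distrib]
          refine Finset.sum_congr rfl fun i _ => ?_
          rw [smul_add, map_add, smul_add] }
    refine ⟨φ, fun j t x => ?_, fun x => ?_⟩
    · change L (b j) • χ j (t • x) = conjE _ _ _ _ t • (L (b j) • χ j x)
      rw [hχt, conjE_apply, ← mul_smul, ← mul_smul, mul_assoc, hL2, mul_one]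
    · change ψ x = ∑ j, L (b j) • χ j x
      have h5 : ∀ i j, L (b j) * Matrix.single i j (1 : S) = L (b i) * Matrix.single j j 1 := by
        intro i j
        ext p q
        rw [Matrix.mul_apply, Matrix.mul_apply, Finset.sum_eq_single i, Finset.sum_eq_single j]
        · rw [hL, hL, mul_comm (b j), Matrix.single_apply, Matrix.single_apply]
          by_cases h : j = q
          · rw [if_pos ⟨rfl, h⟩, if_pos ⟨rfl, h⟩]
          · rw [if_neg (fun hh => h hh.2), if_neg (fun hh => h hh.2)]
        · intro l _ hl
          rw [Matrix.single_apply, if_neg (fun hh => hl hh.1.symm), mul_zero]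
        · intro h
          exact absurd (Finset.mem_univ _) h
        · intro l _ hl
          rw [Matrix.single_apply, if_neg (fun hh => hl hh.1.symm), mul_zero]
        · intro h
          exact absurd (Finset.mem_univ _) h
      have h6 : ∀ i, L (b i) * Dm c i = Matrix.single i i 1 := by
        intro i
        ext p q
        rw [Matrix.mul_apply, Matrix.single_apply]
        by_cases h : q = i
        · subst h
          have h7 : ∀ l, L (b q) p l * Dm c q l q =
              algebraMap k S (b.repr (b.repr 1 l • (b q * b l)) p) := by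
            intro l
            rw [hL, Dm, Matrix.of_apply, if_pos rfl, map_smul, Finsupp.smul_apply, smul_eq_mul,
              mul_comm (b.repr 1 l), RingHom.map_mul]
          rw [Finset.sum_congr rfl fun l _ => h7 l, ← map_sum, ← Finsupp.finsetSum_apply,
            ← map_sum]
          have h8 : ∑ l, b.repr 1 l • (b q * b l) = b q := by
            have h9 : ∀ l, b.repr 1 l • (b q * b l) = b q * (b.repr 1 l • b l) := fun l => by
              rw [mul_smul_comm]
            rw [Finset.sum_congr rfl fun l _ => h9 l, ← Finset.mul_sum, b.sum_repr, mul_one]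
          rw [h8, Module.Basis.repr_self, Finsupp.single_apply]
          by_cases hp : q = p
          · rw [if_pos hp, if_pos ⟨hp, rfl⟩, map_one]
          · rw [if_neg hp, if_neg (fun hh => hp hh.1), map_zero]
        · rw [if_neg (fun hh => h hh.2.symm)]
          refine Finset.sum_eq_zero fun l _ => ?_
          rw [Dm, Matrix.of_apply, if_neg h, mul_zero]
      have h10 : ∀ j, L (b j) • χ j x = ∑ i, (L (b i) * Matrix.single j j 1) •
          ψ (Dm c i • x) := by
        intro j
        rw [hχ, Finset.smul_sum]
        refine Finset.sum_congr rfl fun i _ => ?_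
        rw [← mul_smul, h5]
      rw [Finset.sum_congr rfl fun j _ => h10 j, Finset.sum_comm]
      have h11 : ∀ i, ∑ j, (L (b i) * Matrix.single j j (1 : S)) • ψ (Dm c i • x) =
          ψ (Matrix.single i i (1 : S) • x) := by
        intro i
        rw [← Finset.sum_smul, ← Finset.mul_sum, sum_single_diag, mul_one]
        change g _ • _ = _
        rw [← hψ]
        change ψ (L (b i) • Dm c i • x) = _
        rw [← mul_smul, h6]
      rw [Finset.sum_congr rfl fun i _ => h11 i, ← map_sum, ← Finset.sum_smul, sum_single_diag,
        one_smul]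

theorem pf_GD2 (hTRD : G_TRD) (hGMH : G_GMH) : G_GD2 := by
  intro k K _ _ _ _ _ S _ _
  obtain ⟨a, ha1, ha2, -⟩ := hTRD k K (Module.finBasis k K)
  obtain ⟨g, hg⟩ := hGMH k K (Module.finBasis k K) S
  exact ⟨g, GD2_aux k K (Module.finBasis k K) a ha1 ha2 S g hg⟩

end Pool.Agent.H23.UG
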