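import Pool.Agent.H8.UG.Targets

/-!
# Row GMH of the board ubg: `K ⊗ S` as matrices over `S`
-/

open TensorProduct

namespace Pool.Agent.H23.UG

open Pool.Agent.H8.UG

theorem pf_GMH : G_GMH := by
  intro k K _ _ _ _ b S _ _
  classical
  let F : K →ₐ[k] Matrix (Fin (Module.finrank k K)) (Fin (Module.finrank k K)) S :=
    (AlgHom.mapMatrix (Algebra.ofId k S)).comp (Algebra.leftMulMatrix b)
  have hF : ∀ x i j, F x i j = algebraMap k S (b.repr (x * b j) i) := by
    intro x i j
    change (Algebra.ofId k S) (Algebra.leftMulMatrix b x i j) = _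
    rw [Algebra.leftMulMatrix_eq_repr_mul]
    rfl
  let G : S →ₐ[k] Matrix (Fin (Module.finrank k K)) (Fin (Module.finrank k K)) S :=
    { Matrix.scalar (Fin (Module.finrank k K)) with
      commutes' := fun r => by
        change Matrix.scalar (Fin (Module.finrank k K)) (algebraMap k S r) = _
        rw [Matrix.algebraMap_eq_diagonal]
        rfl }
  have hG : ∀ s i j, G s i j = if i = j then s else 0 := by
    intro s i j
    change Matrix.scalar (Fin (Module.finrank k K)) s i j = _
    rw [Matrix.scalar_apply, Matrix.diagonal_apply]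
  have hc : ∀ x y, Commute (F x) (G y) := by
    intro x y
    ext i j
    rw [Matrix.mul_apply, Matrix.mul_apply]
    simp only [hF, hG, mul_ite, ite_mul, mul_zero, zero_mul, Finset.sum_ite_eq,
      Finset.sum_ite_eq', Finset.mem_univ, if_true]
    exact Algebra.commutes _ _
  refine ⟨(Algebra.TensorProduct.lift F G hc).toRingHom, fun x s i j => ?_⟩
  change (Algebra.TensorProduct.lift F G hc) (x ⊗ₜ[k] s) i j = _
  rw [Algebra.TensorProduct.lift_tmul, Matrix.mul_apply]
  simp only [hF, hG, mul_ite, mul_zero, Finset.sum_ite_eq', Finset.mem_univ, if_true]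

end Pool.Agent.H23.UG
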