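import Pool.Agent.H8.UG.Targets

/-!
# Row TRD of the board ubg: dual bases for the trace form
-/

namespace Pool.Agent.H23.UG

open Pool.Agent.H8.UG

theorem pf_TRD : G_TRD := by
  intro k K _ _ _ _ _ b
  classical
  have hB : (Algebra.traceForm k K).Nondegenerate := traceForm_nondegenerate k K
  set a := LinearMap.BilinForm.dualBasis (Algebra.traceForm k K) hB b with ha
  have h1 : ∀ i j, Algebra.trace k K (a i * b j) = if j = i then 1 else 0 := fun i j => by
    have := LinearMap.BilinForm.apply_dualBasis_left hB b i j
    rwa [Algebra.traceForm_apply] at this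
  have hrepr : ∀ x j, b.repr x j = Algebra.trace k K (x * a j) := by
    intro x j
    conv_rhs => rw [← b.sum_repr x]
    rw [Finset.sum_mul, map_sum]
    rw [Finset.sum_eq_single j]
    · rw [smul_mul_assoc, map_smul, mul_comm (b j), h1, if_pos rfl, smul_eq_mul, mul_one]
    · intro l _ hl
      rw [smul_mul_assoc, map_smul, mul_comm (b l), h1, if_neg hl, smul_zero]
    · intro h
      exact absurd (Finset.mem_univ j) h
  have hb : ∀ x : K, x = ∑ j, Algebra.trace k K (x * a j) • b j := by
    intro x
    conv_lhs => rw [← b.sum_repr x]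
    exact Finset.sum_congr rfl fun j _ => by rw [hrepr]
  have hra : ∀ x i, a.repr x i = Algebra.trace k K (x * b i) := by
    intro x i
    have := LinearMap.BilinForm.dualBasis_repr_apply hB b x i
    rwa [Algebra.traceForm_apply] at this
  have haa : ∀ x : K, x = ∑ j, Algebra.trace k K (x * b j) • a j := by
    intro x
    conv_lhs => rw [← a.sum_repr x]
    exact Finset.sum_congr rfl fun j _ => by rw [hra]
  refine ⟨fun i => a i, fun x => ?_, ?_, fun hG => ?_⟩
  · refine ⟨fun i j => Algebra.trace k K (b i * x * a j), fun i => hb (b i * x), fun j => ?_⟩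
    have h2 := haa (x * a j)
    refine h2.trans (Finset.sum_congr rfl fun i _ => ?_)
    rw [show x * a j * b i = b i * x * a j by ring]
  · have h3 : ∀ x : K, Algebra.trace k K ((∑ i, a i * b i) * x) = Algebra.trace k K (1 * x) := by
      intro x
      rw [one_mul, Algebra.trace_eq_matrix_trace b x, Finset.sum_mul, map_sum]
      unfold Matrix.trace
      refine Finset.sum_congr rfl fun i _ => ?_
      rw [Matrix.diag_apply, Algebra.leftMulMatrix_eq_repr_mul, hrepr]
      rw [show x * b i * a i = a i * b i * x by ring]
    have h4 : ∀ x : K, Algebra.traceForm k K ((∑ i, a i * b i) - 1) x = 0 := by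
      intro x
      rw [Algebra.traceForm_apply, sub_mul, map_sub, h3, sub_self]
    exact sub_eq_zero.mp (hB.1 _ h4)
  · have h5 : ∀ x : K, ∑ g : Gal(K/k), g x = algebraMap k K (Algebra.trace k K x) := fun x =>
      (trace_eq_sum_automorphisms x).symm
    refine ⟨?_, fun x => ⟨_, h5 x⟩⟩
    have h6 : ∑ i, (∑ g : Gal(K/k), g (a i)) * b i = ∑ i, Algebra.trace k K (1 * a i) • b i := by
      refine Finset.sum_congr rfl fun i _ => ?_
      rw [h5, one_mul, Algebra.smul_def]
    rw [h6]
    exact (hb 1).symm

end Pool.Agent.H23.UG
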